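import Pool.Agent.Helper94.LG.LXCNT
import Pool.Agent.Helper24.LG.EX_CNT1
import Pool.Agent.Helper49.LG.EX_CNT2
import Pool.Agent.Helper49.LG.EX_CNT3
import Pool.Agent.Helper85.LG.EX_CNT5

namespace H11ST
namespace LX
open LG

theorem cnt : LX_CNT := cnt_of' ex_cnt1 ex_cnt2 ex_cnt3 ex_cnt5

end LX
end H11ST
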