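import Pool.Agent.Helper94.LG.EX_CNT4
import Pool.Agent.Helper36.LX.Sheet
open MeasureTheory Metric Set Filter Topology
open scoped ENNReal NNReal

namespace H11ST
namespace LX
open LG

variable {d n : ℕ}

theorem carrier_eq (p : Fin n → E d) : ∀ t : BT (Fin n) (E d), carrier p t = gcar p t
  | .leaf _ => rfl
  | .node z l r => by rw [carrier, gcar, carrier_eq p l, carrier_eq p r]

theorem tset_eq (p : Fin n → E d) (i0 : Fin n) (t : BT (Fin n) (E d)) :
    tset p i0 t = gset p i0 t := by rw [tset, gset, carrier_eq]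

theorem cnt_of (h : EX_CNTc) : LX_CNT := by
  intro d n p i0 hd _ hp t _ hadm hlen m hm
  rw [tset_eq] at hadm hlen
  exact h d n p i0 hd hp t hadm hlen m hm

/-- (CNT) from the rows EX_CNT1, EX_CNT2, EX_CNT3, EX_CNT5 -/
theorem cnt_of' (h1 : EX_CNT1) (h2 : EX_CNT2) (h3 : EX_CNT3) (h5 : EX_CNT5) : LX_CNT :=
  cnt_of (h5 (ex_cnt4 h1 h2 h3))

end LX
end H11ST
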