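import Pool.Agent.Helper94.LG.CNT4
import Pool.Agent.Helper50.LG.CHN
import Pool.Agent.Helper61.LG.LOW
import Pool.Agent.Helper85.LG.PRJ
import Pool.Agent.Helper80.LG.CMP
import Pool.Agent.Helper74.LG.ADM
import Pool.Agent.Helper24.LG.CNT1
import Pool.Agent.Helper49.LG.CNT2
import Pool.Agent.Helper13.LG.CNT3
import Pool.Agent.Helper85.LG.CNT5
import Pool.Agent.Helper88.LG.VAR
import Pool.Agent.Helper12.LG.TV
import Pool.Agent.Helper92.LG.ED
import Pool.Agent.Helper10.LG.LF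
import Pool.Agent.Helper14.LG.UP
import Pool.Agent.Helper63.LG.SUM
import Pool.Agent.Helper80.LG.FIN

namespace H11ST
namespace LG

theorem cnt : LG_CNT := cnt5 (cnt4 cnt1 cnt2 cnt3)

/-- linear growth: `N_d(t) ≥ ⌈d / 50⌉` for `d ≥ 2`, `t ≥ 1 / 2` -/
theorem final : LG_FIN := fin chn low prj cmp adm cnt var tv ed lf up sum

end LG
end H11ST
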