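import Pool.Agent.Helper94.LG.Sheet2
open MeasureTheory Metric Set Filter Topology
open scoped ENNReal NNReal

namespace H11ST
namespace LG

variable {d : ℕ}

theorem norm_tm (i : Fin d) : ‖tm d i‖ = 1 := by
  rw [tm, EuclideanSpace.norm_single]; simp

theorem seg_len_le (y v : E d) (hv : ‖v‖ = 1) {a b : ℝ} (hab : a ≤ b) :
    μH[1] ((fun s : ℝ => y + s • v) '' Icc a b) ≤ ENNReal.ofReal (b - a) := by
  have h1 : LipschitzWith 1 (fun s : ℝ => y + s • v) := by
    refine LipschitzWith.of_dist_le_mul fun s s' => ?_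
    rw [dist_add_left, dist_eq_norm, ← sub_smul, norm_smul, hv, mul_one, NNReal.coe_one, one_mul,
      Real.dist_eq, Real.norm_eq_abs]
  have h2 := h1.hausdorffMeasure_image_le (d := 1) (by norm_num) (Icc a b)
  refine h2.trans ?_
  simp [hausdorffMeasure_real]

theorem lin_le {S : Set (E d)} {z u : E d} {ε : ℝ} (L : Lin S z u ε) {δ : ℝ} (h0 : 0 < δ)
    (h1 : δ ≤ ε) : μH[1] (S ∩ ball z δ) ≤ ENNReal.ofReal (2 * δ) := by
  have hsub : S ∩ ball z δ ⊆ (fun s : ℝ => z + s • u) '' Icc (-δ) δ := by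
    rintro v ⟨hv1, hv2⟩
    have h2 : v ∈ S ∩ ball z ε := ⟨hv1, ball_subset_ball h1 hv2⟩
    rw [L.eq] at h2
    obtain ⟨s, hs, rfl⟩ := h2
    rw [mem_ball, dist_eq_norm, add_sub_cancel_left, norm_smul, L.unit, mul_one,
      Real.norm_eq_abs] at hv2
    exact ⟨s, ⟨by linarith [(abs_lt.1 hv2).1], by linarith [(abs_lt.1 hv2).2]⟩, rfl⟩
  refine (measure_mono hsub).trans ((seg_len_le z u L.unit (by linarith)).trans ?_)
  exact ENNReal.ofReal_le_ofReal (by linarith)

theorem tri_le {S : Set (E d)} {z : E d} {u : Fin 3 → E d} {ε : ℝ} (T : Tri S z u ε) {δ : ℝ}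
    (h0 : 0 < δ) (h1 : δ ≤ ε) : μH[1] (S ∩ ball z δ) ≤ ENNReal.ofReal (3 * δ) := by
  have hsub : S ∩ ball z δ ⊆ ⋃ i, (fun s : ℝ => z + s • u i) '' Icc 0 δ := by
    rintro v ⟨hv1, hv2⟩
    have h2 : v ∈ S ∩ ball z ε := ⟨hv1, ball_subset_ball h1 hv2⟩
    rw [T.eq] at h2
    obtain ⟨i, s, hs0, hs, rfl⟩ := h2
    rw [mem_ball, dist_eq_norm, add_sub_cancel_left, norm_smul, T.norm i, mul_one,
      Real.norm_eq_abs] at hv2
    exact mem_iUnion.2 ⟨i, s, ⟨hs0, by linarith [(abs_lt.1 hv2).2]⟩, rfl⟩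
  refine (measure_mono hsub).trans ((measure_iUnion_fintype_le _ _).trans ?_)
  refine (Finset.sum_le_sum fun i _ => seg_len_le z (u i) (T.norm i) h0.le).trans ?_
  rw [Finset.sum_const, Finset.card_univ, Fintype.card_fin, sub_zero, nsmul_eq_mul,
    ENNReal.ofReal_mul (by norm_num)]
  norm_num

theorem cnt4 : LG_CNT4 := by
  intro h1 h2 h3 d i0 hd t hadm hlen y hy hq
  have hne : ∀ i, tm d i ≠ y := by
    intro i h
    rw [← h, norm_tm] at hy
    norm_num at hy
  have hg := h1 d y hne i0 t hq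
  set g := en y (tm d i0) (t.pos (tm d)) + gn y t with hgdef
  obtain ⟨ε0, hε0, h3'⟩ := h3 d i0 t y
  have hfin : μH[1] (tset i0 t) ≠ ∞ := hadm.finite.ne
  have key : ∀ δ : ℝ, 0 < δ → δ ≤ ε0 → (g : ℝ) * δ ≤ (μH[1] (tset i0 t ∩ ball y δ)).toReal :=
    fun δ a b => (h3' δ a b).trans (h2 d i0 t hlen _ measurableSet_ball)
  have g3 : 3 ≤ g := by omega
  have g3' : (3 : ℝ) ≤ g := by exact_mod_cast g3
  have hyS : y ∈ tset i0 t := by
    rw [← hadm.steiner.isClosed.closure_eq, Metric.mem_closure_iff]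
    intro δ hδ
    set δ' := min δ ε0 with hδ'
    have hδ'0 : 0 < δ' := lt_min hδ hε0
    have h4 := key δ' hδ'0 (min_le_right _ _)
    have h5 : 0 < (μH[1] (tset i0 t ∩ ball y δ')).toReal := by nlinarith
    have h6 : (tset i0 t ∩ ball y δ').Nonempty := by
      by_contra hcon
      rw [not_nonempty_iff_eq_empty] at hcon
      rw [hcon] at h5
      simp at h5
    obtain ⟨z, hz1, hz2⟩ := h6
    refine ⟨z, hz1, ?_⟩
    rw [mem_ball, dist_comm] at hz2
    exact hz2.trans_le (min_le_left _ _)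
  have hyb : y ∈ ball (0 : E d) 1 := by
    rw [mem_ball, dist_zero_right]; linarith
  have hreg := reg (d := d) (by omega) (range (tm d)) (tset i0 t) 0 1 hadm.loc.adm
    hadm.compact.isClosed y ⟨hyS, hyb⟩ ⟨tm d i0, Or.inr (mem_range_self i0), hne i0⟩
  have upper : ∀ (δ c : ℝ), 0 ≤ c → μH[1] (tset i0 t ∩ ball y δ) ≤ ENNReal.ofReal c →
      (μH[1] (tset i0 t ∩ ball y δ)).toReal ≤ c := by
    intro δ c hc h
    have := ENNReal.toReal_mono ENNReal.ofReal_ne_top h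
    rwa [ENNReal.toReal_ofReal hc] at this
  rcases hreg with ⟨u, ε, L⟩ | ⟨u, ε, T⟩
  · exfalso
    set δ := min ε ε0 with hδ
    have hδ0 : 0 < δ := lt_min L.pos hε0
    have h4 := key δ hδ0 (min_le_right _ _)
    have h5 := upper δ (2 * δ) (by linarith) (lin_le L hδ0 (min_le_left _ _))
    nlinarith
  · set δ := min ε ε0 with hδ
    have hδ0 : 0 < δ := lt_min T.pos hε0
    have h4 := key δ hδ0 (min_le_right _ _)
    have h5 := upper δ (3 * δ) (by linarith) (tri_le T hδ0 (min_le_left _ _))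
    have h6 : (g : ℝ) ≤ 3 := by
      by_contra hcon
      push Not at hcon
      nlinarith
    have h7 : g ≤ 3 := by exact_mod_cast h6
    refine ⟨by omega, ?_, u, ε, T.pos, T.norm, T.ang, T.eq⟩
    rintro ⟨i, hi⟩
    exact hne i hi

end LG
end H11ST
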