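import Pool.Agent.Helper94.LG.Sheet3
import Pool.Agent.Helper94.LG.CNT4
open MeasureTheory Metric Set Filter Topology
open scoped ENNReal NNReal

namespace H11ST
namespace LG

variable {d : ℕ}

theorem ex_cnt4 : EX_CNT4 := by
  intro h1 h2 h3 d n p i0 hd hp t hadm hlen y hy hq
  have hne : ∀ i, p i ≠ y := by
    intro i h
    rw [← h, hp] at hy
    norm_num at hy
  have hg := h1 d n p y hne i0 t hq
  set g := en y (p i0) (t.pos p) + ggn p y t with hgdef
  obtain ⟨ε0, hε0, h3'⟩ := h3 d n p i0 t y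
  have hfin : μH[1] (gset p i0 t) ≠ ∞ := hadm.finite.ne
  have key : ∀ δ : ℝ, 0 < δ → δ ≤ ε0 → (g : ℝ) * δ ≤ (μH[1] (gset p i0 t ∩ ball y δ)).toReal :=
    fun δ a b => (h3' δ a b).trans (h2 d n p i0 t hlen _ measurableSet_ball)
  have g3 : 3 ≤ g := by omega
  have g3' : (3 : ℝ) ≤ g := by exact_mod_cast g3
  have hyS : y ∈ gset p i0 t := by
    rw [← hadm.steiner.isClosed.closure_eq, Metric.mem_closure_iff]
    intro δ hδ
    set δ' := min δ ε0 with hδ'
    have hδ'0 : 0 < δ' := lt_min hδ hε0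
    have h4 := key δ' hδ'0 (min_le_right _ _)
    have h5 : 0 < (μH[1] (gset p i0 t ∩ ball y δ')).toReal := by nlinarith
    have h6 : (gset p i0 t ∩ ball y δ').Nonempty := by
      by_contra hcon
      rw [not_nonempty_iff_eq_empty] at hcon
      rw [hcon] at h5
      simp at h5
    obtain ⟨z, hz1, hz2⟩ := h6
    refine ⟨z, hz1, ?_⟩
    rw [mem_ball, dist_comm] at hz2
    exact hz2.trans_le (min_le_left _ _)
  have hyb : y ∈ ball (0 : E d) 1 := by
    rw [mem_ball, dist_zero_right]; linarith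
  have hreg := reg (d := d) (by omega) (range p) (gset p i0 t) 0 1 hadm.loc.adm
    hadm.compact.isClosed y ⟨hyS, hyb⟩ ⟨p i0, Or.inr (mem_range_self i0), hne i0⟩
  have upper : ∀ (δ c : ℝ), 0 ≤ c → μH[1] (gset p i0 t ∩ ball y δ) ≤ ENNReal.ofReal c →
      (μH[1] (gset p i0 t ∩ ball y δ)).toReal ≤ c := by
    intro δ c hc h
    have := ENNReal.toReal_mono ENNReal.ofReal_ne_top h
    rwa [ENNReal.toReal_ofReal hc] at this
  rcases hreg with ⟨u, ε, L⟩ | ⟨u, ε, T⟩
  · exfalso
    set δ := min ε ε0 with hδ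
    have hδ0 : 0 < δ := lt_min L.pos hε0
    have h4 := key δ hδ0 (min_le_right _ _)
    have h5 := upper δ (2 * δ) (by linarith) (lin_le L hδ0 (min_le_left _ _))
    nlinarith
  · set δ := min ε ε0 with hδ
    have hδ0 : 0 < δ := lt_min T.pos hε0
    have h4 := key δ hδ0 (min_le_right _ _)
    have h5 := upper δ (3 * δ) (by linarith) (tri_le T hδ0 (min_le_left _ _))
    have h6 : (g : ℝ) ≤ 3 := by
      by_contra hcon
      push Not at hcon
      nlinarith
    have h7 : g ≤ 3 := by exact_mod_cast h6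
    refine ⟨by omega, ?_, u, ε, T.pos, T.norm, T.ang, T.eq⟩
    rintro ⟨i, hi⟩
    exact hne i hi

end LG
end H11ST
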