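import Pool.Agent.H11ST.Square
import Pool.Agent.H11ST.Main
import Pool.Agent.H11ST.Reg
open MeasureTheory Metric Set Filter Topology
open scoped ENNReal NNReal

/-!
# LG: `N_d(t) ≥ d / 50` for all `d ≥ 2`, `t ≥ 1 / 2`

Terminals: the orthonormal basis `tm i` of `E d`. A minimal full binary network `t` (class `Mn`),
rooted at the terminal `i0`, nodes in the simplex `Dl`.
(1) `T = tset t` is a Steiner set (CHN, LOW, MIN), and its nodes of norm `< 1 / 2` are distinct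
branching points (CNT).
(2) First variation (VAR) with the field `7/8 y - XX y`: `tot EE ≤ 15/8 L`.
(3) `TE ≤ EE` for every edge (ED), with slack `SL` for the edges at the leaves (LF).
(4) `tot |u a - u b| ≥ u (tm j) + ∑ nodes u` (TV).
(5) `L ≤ 954/1000 d + 2/10` (UP). So `15/8 L ≥ 5/4 d + (d - 2 - nin) / 2 + 8/100 (d - 1 - 2 nin)`
and the number `nin` of nodes of norm `< 1 / 2` is `≥ d / 17 - 3`.
-/

namespace H11ST
namespace LG

/-- rooted binary trees; leaves carry labels, nodes carry positions -/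
inductive BT (ι V : Type) : Type
  | leaf (i : ι) : BT ι V
  | node (z : V) (l r : BT ι V) : BT ι V

namespace BT
variable {ι V : Type}

/-- position of the root, `p` = positions of the labels -/
def pos (p : ι → V) : BT ι V → V
  | leaf i => p i
  | node z _ _ => z

/-- sum over the edges `(parent, child)` -/
def esum (p : ι → V) (f : V → V → ℝ) : BT ι V → ℝ
  | leaf _ => 0
  | node z l r => f z (l.pos p) + l.esum p f + (f z (r.pos p) + r.esum p f)

/-- sum over the edges whose child is a leaf -/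
def lsum (p : ι → V) (f : V → V → ℝ) : BT ι V → ℝ
  | leaf _ => 0
  | node z l r => (match l with
      | leaf i => f z (p i)
      | node _ _ _ => 0) + l.lsum p f + ((match r with
      | leaf i => f z (p i)
      | node _ _ _ => 0) + r.lsum p f)

/-- sum over the nodes -/
def nsum (u : V → ℝ) : BT ι V → ℝ
  | leaf _ => 0
  | node z l r => u z + l.nsum u + r.nsum u

/-- the nodes -/
def nodes : BT ι V → List V
  | leaf _ => []
  | node z l r => z :: (l.nodes ++ r.nodes)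

/-- change the positions of the nodes -/
def map (g : V → V) : BT ι V → BT ι V
  | leaf i => leaf i
  | node z l r => node (g z) (l.map g) (r.map g)

/-- the labels -/
def lv [DecidableEq ι] : BT ι V → Finset ι
  | leaf i => {i}
  | node _ l r => l.lv ∪ r.lv

/-- every label occurs once -/
def ok [DecidableEq ι] : BT ι V → Prop
  | leaf _ => True
  | node _ l r => l.ok ∧ r.ok ∧ Disjoint l.lv r.lv

end BT

variable {d : ℕ}

/-- the union of the edges -/
def carrier (p : Fin d → E d) : BT (Fin d) (E d) → Set (E d)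
  | .leaf i => {p i}
  | .node z l r => segment ℝ z (l.pos p) ∪ carrier p l ∪ (segment ℝ z (r.pos p) ∪ carrier p r)

/-- the terminals -/
noncomputable def tm (d : ℕ) (i : Fin d) : E d := EuclideanSpace.single i 1

/-- sum over all edges, with the edge from the terminal `i0` to the root -/
noncomputable def tot (i0 : Fin d) (f : E d → E d → ℝ) (t : BT (Fin d) (E d)) : ℝ :=
  f (tm d i0) (t.pos (tm d)) + t.esum (tm d) f

/-- the network as a set -/
def tset (i0 : Fin d) (t : BT (Fin d) (E d)) : Set (E d) :=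
  segment ℝ (tm d i0) (t.pos (tm d)) ∪ carrier (tm d) t

/-- the simplex -/
def Dl (d : ℕ) : Set (E d) := {y | (∀ k, 0 ≤ y k) ∧ ∑ k, y k = 1}

/-- networks for all terminals -/
def Val (i0 : Fin d) (t : BT (Fin d) (E d)) : Prop := t.ok ∧ t.lv = Finset.univ.erase i0

/-- minimal networks with nodes in the simplex -/
structure Mn (i0 : Fin d) (t : BT (Fin d) (E d)) : Prop where
  val : Val i0 t
  mem : ∀ z ∈ t.nodes, z ∈ Dl d
  le : ∀ t', Val i0 t' → tot i0 dist t ≤ tot i0 dist t'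

open scoped Classical in
/-- number of nodes of norm `< 1 / 2` -/
noncomputable def nin (t : BT (Fin d) (E d)) : ℝ := t.nsum fun z => if ‖z‖ < 1 / 2 then 1 else 0

/-- `Θ' = h w(h)`, `w = 2` on `[0, 1/2]`, `w = 1` on `[1/2, 1]` -/
noncomputable def Th (x : ℝ) : ℝ := if x ≤ 1 / 2 then x ^ 2 else x ^ 2 / 2 + 1 / 8
/-- `F' = h w(h) ^ 2` -/
noncomputable def FF (x : ℝ) : ℝ := if x ≤ 1 / 2 then 2 * x ^ 2 else x ^ 2 / 2 + 3 / 8
/-- the field -/
noncomputable def XX (y : E d) : E d := WithLp.toLp 2 fun k => FF (y k)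
noncomputable def sT (y : E d) : ℝ := ∑ k, Th (y k)
noncomputable def EE (a b : E d) : ℝ := ‖a - b‖ + inner ℝ (a - b) (XX a - XX b) / ‖a - b‖
noncomputable def TE (a b : E d) : ℝ := 2 * ∑ k, |Th (a k) - Th (b k)|
noncomputable def SL (a b : E d) : ℝ := EE a b - TE a b

/-! ## The rows -/

/-- (CHN) points of a chain of small sets are joined by a network (cf. `P5.five` in
Helper94/P5/Five.lean). Induction on the chain. First a lemma (graft): replace in `t'` the leaf `i0`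
by a tree with the labels `S₂`. Star with centre `w` over `S`: all nodes at `w`,
`dist w pos + len ≤ ∑ i ∈ S, dist w (p i)`. Step `U ∪ O`, `w ∈ U ∩ O`, `SU` = labels with
`p i ∈ U`, `SO` = the rest. `y ∈ U`, `SO = ∅`: induction. `y ∈ U`, `SO ≠ ∅`, `i1 ∈ SO`: induction
for `Function.update p i1 w` and `SU ∪ {i1}`, then graft the star of `SO` at `w`.
`y ∈ O`: `SU = ∅`: star at `y`; else induction with `w` for `SU`, then (if `SO ≠ ∅`) the node `w`
with the star of `SO`. -/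
def LG_CHN : Prop := ∀ (d : ℕ) (η s : ℝ) (U : Set (E d)), Chain η U s →
  ∀ (p : Fin d → E d) (S : Finset (Fin d)), S.Nonempty → (∀ i ∈ S, p i ∈ U) → ∀ y ∈ U,
  ∃ t : BT (Fin d) (E d), t.ok ∧ t.lv = S ∧
    dist y (t.pos p) + t.esum p dist ≤ s + ((S.card : ℝ) - 1) * η

/-- (LOW) from CHN as `P5.low` (Helper94/P5/Cert.lean) -/
def LG_LOW : Prop := LG_CHN → ∀ (d : ℕ) (i0 : Fin d), 2 ≤ d → ∀ T : Set (E d), IsClosed T →
  IsConnected (T ∪ range (tm d)) → ∀ L : ℝ, (∀ t, Val i0 t → L ≤ tot i0 dist t) →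
  ENNReal.ofReal L ≤ μH[1] T

/-- (PRJ) the metric projection onto the simplex (`exists_norm_eq_iInf_of_complete_convex`,
`norm_eq_iInf_iff_real_inner_le_zero`) is 1-Lipschitz and fixes the terminals -/
def LG_PRJ : Prop := ∀ (d : ℕ) (i0 : Fin d) (t : BT (Fin d) (E d)), Val i0 t →
  ∃ t', Val i0 t' ∧ (∀ z ∈ t'.nodes, z ∈ Dl d) ∧ tot i0 dist t' ≤ tot i0 dist t

/-- (CMP) compactness. For every finite set `S` of labels the set of all
`(t.pos, t.esum dist) ∈ E d × ℝ`, `t.ok`, `t.lv = S`, nodes in the compact set `Dl d`, is compact: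
strong induction on `S` (one label: one point; else the finite union over `S₁ ⊂ S` of the images of
`Dl d × C S₁ × C (S \ S₁)` under `(z, (a, x), (b, y)) ↦ (z, dist z a + x + (dist z b + y))`). -/
def LG_CMP : Prop := ∀ (d : ℕ) (i0 : Fin d), 2 ≤ d → ∃ t : BT (Fin d) (E d), Val i0 t ∧
  (∀ z ∈ t.nodes, z ∈ Dl d) ∧ ∀ t', Val i0 t' → (∀ z ∈ t'.nodes, z ∈ Dl d) →
  tot i0 dist t ≤ tot i0 dist t'

/-- (ADM) a minimal network is an admissible configuration; `L` is its length -/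
def LG_ADM : Prop := (∀ (d : ℕ) (i0 : Fin d), 2 ≤ d → ∀ T : Set (E d), IsClosed T →
  IsConnected (T ∪ range (tm d)) → ∀ L : ℝ, (∀ t, Val i0 t → L ≤ tot i0 dist t) →
  ENNReal.ofReal L ≤ μH[1] T) → ∀ (d : ℕ) (i0 : Fin d), 2 ≤ d → ∀ t, Mn i0 t →
  Admissible (range (tm d)) (tset i0 t) 0 1 ∧
  μH[1] (tset i0 t) = ENNReal.ofReal (tot i0 dist t)

/-- (CNT) For a point `y` of norm `< 1 / 2` let `q` = number of nodes at `y`, `g` = number of ends at
`y` of edges of positive length. Induction: `q + 1 ≤ g` if the root is at `y` (edge above not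
counted), `q + 2 ≤ g` or `q = 0` else; so `q + 2 ≤ g` for the whole network if `q ≥ 1`. With
`M(B) = ∑ edges μH[1] (segment ∩ B)`: `M(B) + M(Bᶜ) = L = μH[1] T` and `μH[1] (T ∩ B) ≤ M(B)`, so
`M(B) = μH[1] (T ∩ B)`; for `B = ball y ε`, `ε` small: `g ε ≤ M(B) ≤ 3 ε` by `reg` (Lin: `2 ε`, Tri:
`3 ε`). So `q = 1`, `g = 3`, Tri: `y` is a branching point; nodes of norm `< 1 / 2` are distinct;
`le_N`. -/
def LG_CNT : Prop := ∀ (d : ℕ) (i0 : Fin d), 2 ≤ d → ∀ t, Mn i0 t →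
  Admissible (range (tm d)) (tset i0 t) 0 1 →
  μH[1] (tset i0 t) = ENNReal.ofReal (tot i0 dist t) →
  ∀ m : ℕ, (m : ℝ) ≤ nin t → (m : ℕ∞) ≤ N d (1 / 2)

/-- (VAR) compare with `t.map (fun z => z + ε • D z)`;
`‖u + ε w‖ ≤ ‖u‖ + ε ⟪u, w⟫ / ‖u‖ + ε² ‖w‖² / (2 ‖u‖)` -/
def LG_VAR : Prop := ∀ (d : ℕ) (i0 : Fin d) (t : BT (Fin d) (E d)), Mn i0 t →
  ∀ D : E d → E d, (∀ i, D (tm d i) = 0) →
  0 ≤ tot i0 (fun a b => inner ℝ (a - b) (D a - D b) / ‖a - b‖) t

/-- (TV) subtree `t` with leaf `j`: `esum + u (pos t) ≥ u (tm j) + nsum`; without: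
`esum + ∑ leaves u ≥ u (pos t) + nsum` -/
def LG_TV : Prop := ∀ (d : ℕ) (i0 : Fin d) (t : BT (Fin d) (E d)), Val i0 t →
  ∀ (u : E d → ℝ) (j : Fin d), (∀ i, i ≠ j → u (tm d i) = 0) →
  u (tm d j) + t.nsum u ≤ tot i0 (fun a b => |u a - u b|) t

/-- (ED) per coordinate `2 |Θ x - Θ y| ≤ ℓ (x + y) / 2 + (x - y) (F x - F y) / ℓ`, from
`(Θ x - Θ y)² ≤ (x + y) / 2 (x - y) (F x - F y)` (three cases) -/
def LG_ED : Prop := ∀ (d : ℕ) (a b : E d), a ∈ Dl d → b ∈ Dl d → TE a b ≤ EE a b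

/-- (LF) the minimum is `.0975` (`v j = .4`, four other coordinates `.15`). With `a = v j`,
`q = ∑ k ≠ j, v k ^ 2`, `ℓ² = (1 - a)² + q`, `∑ k ≠ j, v k ^ 3 ≥ q² / (1 - a)`. -/
def LG_LF : Prop := ∀ (d : ℕ) (v : E d), v ∈ Dl d → 1 / 2 ≤ ‖v‖ → ∀ j : Fin d,
  8 / 100 ≤ SL v (tm d j) + (sT v - 1 / 4)

/-- (UP) groups of four `a, b, c, e`: nodes `α (a + b) + β (c + e)`, `β (a + b) + α (c + e)`,
`γ (a + b + c + e)`, joined to a node at `0`: `α = .2212`, `β = .0747`, `γ = .1057`: length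
`4 * .8165 + 2 * .1691 + .2114 = 3.8156`. -/
def LG_UP : Prop := ∀ (d : ℕ) (i0 : Fin d), 2 ≤ d → ∃ t, Val i0 t ∧
  tot i0 dist t ≤ 954 / 1000 * d + 2 / 10

/-- (SUM) -/
def LG_SUM : Prop := LG_VAR → LG_TV → LG_ED → LG_LF → LG_UP → ∀ (d : ℕ) (i0 : Fin d), 3 ≤ d →
  ∀ t, Mn i0 t → (4125 / 100000 * d - 1455 / 1000) ≤ 66 / 100 * nin t

/-- (FIN) -/
def LG_FIN : Prop := ∀ d : ℕ, 2 ≤ d → ∀ t : ℝ, 1 / 2 ≤ t → (((d + 49) / 50 : ℕ) : ℕ∞) ≤ N d t

end LG
end H11ST
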