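import Pool.Agent.Helper94.LG.Sheet
open MeasureTheory Metric Set Filter Topology
open scoped ENNReal NNReal

/-!
# LG: the sub-rows of CNT
-/

namespace H11ST
namespace LG

variable {d : ℕ}

open scoped Classical in
/-- number of nodes at `y` -/
noncomputable def qn (y : E d) : BT (Fin d) (E d) → ℕ
  | .leaf _ => 0
  | .node z l r => (if z = y then 1 else 0) + qn y l + qn y r

open scoped Classical in
/-- number of ends at `y` of the edge `a b` -/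
noncomputable def en (y a b : E d) : ℕ :=
  if a = b then 0 else (if a = y then 1 else 0) + (if b = y then 1 else 0)

/-- number of ends at `y` of the edges of `t` -/
noncomputable def gn (y : E d) : BT (Fin d) (E d) → ℕ
  | .leaf _ => 0
  | .node z l r => en y z (l.pos (tm d)) + gn y l + (en y z (r.pos (tm d)) + gn y r)

/-- length of the edge in `B` -/
noncomputable def ml (B : Set (E d)) (a b : E d) : ℝ := (μH[1] (segment ℝ a b ∩ B)).toReal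

/-- (CNT1) -/
def LG_CNT1 : Prop := ∀ (d : ℕ) (y : E d), (∀ i, tm d i ≠ y) → ∀ (i0 : Fin d)
  (t : BT (Fin d) (E d)), 1 ≤ qn y t → qn y t + 2 ≤ en y (tm d i0) (t.pos (tm d)) + gn y t

/-- (CNT2) `tot (ml B) + tot (ml Bᶜ) = tot dist`, `μH[1] (tset ∩ B) ≤ tot (ml B)` -/
def LG_CNT2 : Prop := ∀ (d : ℕ) (i0 : Fin d) (t : BT (Fin d) (E d)),
  μH[1] (tset i0 t) = ENNReal.ofReal (tot i0 dist t) → ∀ B : Set (E d), MeasurableSet B →
  tot i0 (ml B) t ≤ (μH[1] (tset i0 t ∩ B)).toReal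

/-- (CNT3) -/
def LG_CNT3 : Prop := ∀ (d : ℕ) (i0 : Fin d) (t : BT (Fin d) (E d)) (y : E d), ∃ ε0 > 0,
  ∀ ε : ℝ, 0 < ε → ε ≤ ε0 →
  ((en y (tm d i0) (t.pos (tm d)) + gn y t : ℕ) : ℝ) * ε ≤ tot i0 (ml (ball y ε)) t

/-- (CNT4) by `reg`, with `μH[1] (S ∩ ball z δ) ≤ 2 δ` (Lin), `≤ 3 δ` (Tri) for `δ ≤ ε` -/
def LG_CNT4 : Prop := LG_CNT1 → LG_CNT2 → LG_CNT3 → ∀ (d : ℕ) (i0 : Fin d), 2 ≤ d → ∀ t,
  Admissible (range (tm d)) (tset i0 t) 0 1 →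
  μH[1] (tset i0 t) = ENNReal.ofReal (tot i0 dist t) → ∀ y : E d, ‖y‖ < 1 / 2 → 1 ≤ qn y t →
  qn y t = 1 ∧ IsBranchingPoint (range (tm d)) (tset i0 t) y

/-- (CNT5) -/
def LG_CNT5 : Prop := (∀ (d : ℕ) (i0 : Fin d), 2 ≤ d → ∀ t,
  Admissible (range (tm d)) (tset i0 t) 0 1 →
  μH[1] (tset i0 t) = ENNReal.ofReal (tot i0 dist t) → ∀ y : E d, ‖y‖ < 1 / 2 → 1 ≤ qn y t →
  qn y t = 1 ∧ IsBranchingPoint (range (tm d)) (tset i0 t) y) → LG_CNT

end LG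
end H11ST
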