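import Pool.Agent.Helper94.LG.Sheet2
open MeasureTheory Metric Set Filter Topology
open scoped ENNReal NNReal

/-!
# LG, part 3: `N_d(t) ≥ exp (c d)` for `t ≥ 1 / 2`

Terminals `p : Fin n → E d`, unit vectors with `|⟪p i, p j⟫| ≤ ε`, `n` exponential in `d`.
A minimal network `t` in `E d` is lifted to `E n` (barycentric coordinates of the nodes, terminals
`tm n i`); lengths of edges change by `≤ √ε` times the `l¹`-distance (PSI, LIFT), so the lift is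
almost minimal, hence almost stationary (VAR2), and the counting in `E n` works (SUM2).
-/

namespace H11ST
namespace LG

/-- change the positions of the nodes -/
def BT.mapv {ι V W : Type} (g : V → W) : BT ι V → BT ι W
  | .leaf i => .leaf i
  | .node z l r => .node (g z) (l.mapv g) (r.mapv g)

variable {d n : ℕ}

/-- the union of the edges -/
def gcar (p : Fin n → E d) : BT (Fin n) (E d) → Set (E d)
  | .leaf i => {p i}
  | .node z l r => segment ℝ z (l.pos p) ∪ gcar p l ∪ (segment ℝ z (r.pos p) ∪ gcar p r)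

/-- sum over all edges -/
noncomputable def gtot (p : Fin n → E d) (i0 : Fin n) (f : E d → E d → ℝ)
    (t : BT (Fin n) (E d)) : ℝ := f (p i0) (t.pos p) + t.esum p f

/-- the network as a set -/
def gset (p : Fin n → E d) (i0 : Fin n) (t : BT (Fin n) (E d)) : Set (E d) :=
  segment ℝ (p i0) (t.pos p) ∪ gcar p t

def GVal (i0 : Fin n) (t : BT (Fin n) (E d)) : Prop := t.ok ∧ t.lv = Finset.univ.erase i0

/-- minimal networks -/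
structure GMn (p : Fin n → E d) (i0 : Fin n) (t : BT (Fin n) (E d)) : Prop where
  val : GVal i0 t
  mem : ∀ z ∈ t.nodes, z ∈ convexHull ℝ (range p)
  le : ∀ t', GVal i0 t' → gtot p i0 dist t ≤ gtot p i0 dist t'

open scoped Classical in
/-- number of nodes at `y` -/
noncomputable def gqn (y : E d) : BT (Fin n) (E d) → ℕ
  | .leaf _ => 0
  | .node z l r => (if z = y then 1 else 0) + gqn y l + gqn y r

/-- number of ends at `y` of the edges of `t` -/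
noncomputable def ggn (p : Fin n → E d) (y : E d) : BT (Fin n) (E d) → ℕ
  | .leaf _ => 0
  | .node z l r => en y z (l.pos p) + ggn p y l + (en y z (r.pos p) + ggn p y r)

open scoped Classical in
/-- number of nodes of norm `< 1 / 2` -/
noncomputable def gnin (t : BT (Fin n) (E d)) : ℝ := t.nsum fun z => if ‖z‖ < 1 / 2 then 1 else 0

open scoped Classical in
/-- number of nodes with `‖z‖² < 1 / 4 - 1 / 1000` -/
noncomputable def gnin2 (t : BT (Fin n) (E n)) : ℝ :=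
  t.nsum fun z => if ‖z‖ ^ 2 < 1 / 4 - 1 / 1000 then 1 else 0

def NearOrth (ε : ℝ) (p : Fin n → E d) : Prop :=
  (∀ i, ‖p i‖ = 1) ∧ ∀ i j, i ≠ j → |inner ℝ (p i) (p j)| ≤ ε

/-- the linear map with `tm n i ↦ p i` -/
noncomputable def psi (p : Fin n → E d) (y : E n) : E d := ∑ i, y i • p i

/-- the `l¹` norm -/
noncomputable def n1 (y : E n) : ℝ := ∑ k, |y k|

/-! ## The rows: general versions of CHN, LOW, PRJ + CMP, ADM, CNT -/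

def EX_CHN : Prop := ∀ (d n : ℕ) (η s : ℝ) (U : Set (E d)), Chain η U s →
  ∀ (p : Fin n → E d) (S : Finset (Fin n)), S.Nonempty → (∀ i ∈ S, p i ∈ U) → ∀ y ∈ U,
  ∃ t : BT (Fin n) (E d), t.ok ∧ t.lv = S ∧
    dist y (t.pos p) + t.esum p dist ≤ s + ((S.card : ℝ) - 1) * η

def EX_LOWc : Prop := ∀ (d n : ℕ) (p : Fin n → E d) (i0 : Fin n), 2 ≤ n →
  ∀ T : Set (E d), IsClosed T → IsConnected (T ∪ range p) → ∀ L : ℝ,
  (∀ t, GVal i0 t → L ≤ gtot p i0 dist t) → ENNReal.ofReal L ≤ μH[1] T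

def EX_LOW : Prop := EX_CHN → EX_LOWc

/-- (PRJ) nodes in the compact convex set `convexHull ℝ (range p)` -/
def EX_PRJ : Prop := ∀ (d n : ℕ) (p : Fin n → E d) (i0 : Fin n) (t : BT (Fin n) (E d)),
  GVal i0 t → ∃ t', GVal i0 t' ∧ (∀ z ∈ t'.nodes, z ∈ convexHull ℝ (range p)) ∧
  gtot p i0 dist t' ≤ gtot p i0 dist t

def EX_CMP : Prop := ∀ (d n : ℕ) (p : Fin n → E d) (i0 : Fin n), 2 ≤ n →
  ∀ K : Set (E d), IsCompact K → K.Nonempty → ∃ t : BT (Fin n) (E d), GVal i0 t ∧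
  (∀ z ∈ t.nodes, z ∈ K) ∧ ∀ t', GVal i0 t' → (∀ z ∈ t'.nodes, z ∈ K) →
  gtot p i0 dist t ≤ gtot p i0 dist t'

def EX_ADM : Prop := EX_LOWc → ∀ (d n : ℕ) (p : Fin n → E d) (i0 : Fin n), 2 ≤ n →
  (∀ i, ‖p i‖ = 1) → ∀ t, GMn p i0 t → Admissible (range p) (gset p i0 t) 0 1 ∧
  μH[1] (gset p i0 t) = ENNReal.ofReal (gtot p i0 dist t)

def EX_CNT1 : Prop := ∀ (d n : ℕ) (p : Fin n → E d) (y : E d), (∀ i, p i ≠ y) →
  ∀ (i0 : Fin n) (t : BT (Fin n) (E d)), 1 ≤ gqn y t →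
  gqn y t + 2 ≤ en y (p i0) (t.pos p) + ggn p y t

def EX_CNT2 : Prop := ∀ (d n : ℕ) (p : Fin n → E d) (i0 : Fin n) (t : BT (Fin n) (E d)),
  μH[1] (gset p i0 t) = ENNReal.ofReal (gtot p i0 dist t) → ∀ B : Set (E d), MeasurableSet B →
  gtot p i0 (ml B) t ≤ (μH[1] (gset p i0 t ∩ B)).toReal

def EX_CNT3 : Prop := ∀ (d n : ℕ) (p : Fin n → E d) (i0 : Fin n) (t : BT (Fin n) (E d)) (y : E d),
  ∃ ε0 > 0, ∀ ε : ℝ, 0 < ε → ε ≤ ε0 →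
  ((en y (p i0) (t.pos p) + ggn p y t : ℕ) : ℝ) * ε ≤ gtot p i0 (ml (ball y ε)) t

def EX_CNT4c : Prop := ∀ (d n : ℕ) (p : Fin n → E d) (i0 : Fin n), 2 ≤ d → (∀ i, ‖p i‖ = 1) →
  ∀ t, Admissible (range p) (gset p i0 t) 0 1 →
  μH[1] (gset p i0 t) = ENNReal.ofReal (gtot p i0 dist t) → ∀ y : E d, ‖y‖ < 1 / 2 →
  1 ≤ gqn y t → gqn y t = 1 ∧ IsBranchingPoint (range p) (gset p i0 t) y

def EX_CNT4 : Prop := EX_CNT1 → EX_CNT2 → EX_CNT3 → EX_CNT4c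

def EX_CNTc : Prop := ∀ (d n : ℕ) (p : Fin n → E d) (i0 : Fin n), 2 ≤ d → (∀ i, ‖p i‖ = 1) →
  ∀ t, Admissible (range p) (gset p i0 t) 0 1 →
  μH[1] (gset p i0 t) = ENNReal.ofReal (gtot p i0 dist t) →
  ∀ m : ℕ, (m : ℝ) ≤ gnin t → (m : ℕ∞) ≤ N d (1 / 2)

def EX_CNT5 : Prop := EX_CNT4c → EX_CNTc

/-! ## The new rows -/

/-- (NOR) greedy, vectors `± 1 / √d`: for a fixed sign vector at most `2 exp (- ε² d / 2) 2 ^ d` sign
vectors have `|∑ ± 1| > ε d` (`∑ exp (ε ∑ y) = (2 cosh ε) ^ d`, `Real.cosh_le_exp_half_sq`) -/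
def EX_NOR : Prop := ∀ ε : ℝ, 0 < ε → ε ≤ 1 → ∀ d : ℕ, 1 ≤ d → ∀ n : ℕ,
  (n : ℝ) ≤ Real.exp (ε ^ 2 * d / 2) / 2 → ∃ p : Fin n → E d, NearOrth ε p

/-- (PSI) `|‖psi (a - b)‖² - ‖a - b‖²| ≤ ε n1 (a - b) ^ 2` -/
def EX_PSI : Prop := ∀ (d n : ℕ) (ε : ℝ) (p : Fin n → E d), 0 ≤ ε → NearOrth ε p → ∀ a b : E n,
  |‖psi p a - psi p b‖ - ‖a - b‖| ≤ √ε * n1 (a - b)

/-- (LIFT) `s = t.mapv lam`, `lam v` = barycentric coordinates of `v`, `psi (lam v) = v`,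
`‖lam v‖² ≥ ‖v‖² - ε`; at most `2 n` edges, `n1 (a - b) ≤ 2` on the simplex, `≤ 10` if
`n1 a, n1 b ≤ 5` -/
def EX_LIFT : Prop := EX_PSI → ∀ (d n : ℕ) (ε : ℝ) (p : Fin n → E d) (i0 : Fin n), 0 ≤ ε →
  ε ≤ 1 / 1000 → NearOrth ε p → ∀ t, GMn p i0 t → ∃ s : BT (Fin n) (E n), Val i0 s ∧
  (∀ z ∈ s.nodes, z ∈ Dl n) ∧ tot i0 dist s ≤ gtot p i0 dist t + 4 * √ε * n ∧
  gnin2 s ≤ gnin t ∧
  ∀ s', Val i0 s' → (∀ z ∈ s'.nodes, n1 z ≤ 5) →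
    gtot p i0 dist t ≤ tot i0 dist s' + 20 * √ε * n

/-- (VAR2) `D y = 7/8 y - XX y` is 3-Lipschitz on the simplex; compare with
`s.map (fun z => z + (1/1000) • D z)` -/
def EX_VAR2 : Prop := ∀ (n : ℕ) (i0 : Fin n) (s : BT (Fin n) (E n)), Val i0 s →
  (∀ z ∈ s.nodes, z ∈ Dl n) → tot i0 dist s ≤ 11 / 10 * n →
  (∀ s', Val i0 s' → (∀ z ∈ s'.nodes, n1 z ≤ 5) →
    tot i0 dist s ≤ tot i0 dist s' + 1 / 1000000 * n) →
  tot i0 (fun a b => inner ℝ (a - b) (XX a - XX b) / ‖a - b‖) s ≤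
    7 / 8 * tot i0 dist s + 1 / 100 * n

/-- (LF2) as LF, true minimum `.0974` -/
def EX_LF2 : Prop := ∀ (n : ℕ) (v : E n), v ∈ Dl n → 1 / 4 - 1 / 1000 ≤ ‖v‖ ^ 2 → ∀ j : Fin n,
  8 / 100 ≤ SL v (tm n j) + (sT v - 1 / 4)

/-- (SUM2) as SUM: a node with `m` leaves and `‖z‖² ≥ 1/4 - 1/1000` contributes
`≥ 1 / 2 - 2 / 1000 + 8/100 m` -/
def EX_SUM2 : Prop := LG_TV → LG_ED → EX_LF2 → ∀ (n : ℕ) (i0 : Fin n), 3 ≤ n →
  ∀ s : BT (Fin n) (E n), Val i0 s → (∀ z ∈ s.nodes, z ∈ Dl n) →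
  tot i0 dist s ≤ 955 / 1000 * n + 2 / 10 →
  tot i0 (fun a b => inner ℝ (a - b) (XX a - XX b) / ‖a - b‖) s ≤
    7 / 8 * tot i0 dist s + 1 / 100 * n →
  27 / 1000 * n - 3 / 2 ≤ 66 / 100 * gnin2 s

/-- (UP2) from UP, PRJ (in `E n`), PSI: push the network down by `psi` -/
def EX_UP2 : Prop := LG_UP → LG_PRJ → EX_PSI → ∀ (d n : ℕ) (ε : ℝ) (p : Fin n → E d)
  (i0 : Fin n), 2 ≤ n → 0 ≤ ε → NearOrth ε p → ∃ t, GVal i0 t ∧
  gtot p i0 dist t ≤ 954 / 1000 * n + 2 / 10 + 4 * √ε * n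

/-- (FIN2) `ε = 10 ^ (-16)`, `n = ⌊exp (ε² d / 2) / 2⌋`, `c = ε² / 20`; `m ≤ 2` by `two_le_N'` -/
def EX_FIN : Prop := ∃ c : ℝ, 0 < c ∧ ∀ d : ℕ, 2 ≤ d → ∀ t : ℝ, 1 / 2 ≤ t → ∀ m : ℕ,
  (m : ℝ) ≤ Real.exp (c * d) → (m : ℕ∞) ≤ N d t

end LG
end H11ST
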